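import Mathlib
import Pool.Agent.H525.EX.Stm5
import Pool.Agent.H253.EX.GD2

/-!
# GD20: the derivative at `1` of the sum of all weights of the second kind, second family
(helper231 for helper525; adapted from `H253/EX/GD2.lean`)
-/

set_option linter.all false

namespace Pool.Agent.H231.EX

open Polynomial UniqueFactorizationMonoid
open Pool.Agent.H985.Chow (mob)
open Pool.Agent.H525.QF
open Pool.Agent.H525.EX
open Pool.Agent.H627.EX (der_eval)
open Pool.Agent.H253.EX (arith2 arith2' cII_zero sum_pp)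
open scoped Classical

section

variable {K : Type} [Field K] [Fintype K]

omit [Fintype K] in
lemma quad_mon : (X ^ 2 + X : K[X]).Monic ∧ (X ^ 2 + X : K[X]).natDegree = 2 := by
  have h1 : (X : K[X]).degree < (X ^ 2 : K[X]).degree := by
    rw [degree_X, degree_X_pow]
    norm_num
  exact ⟨(monic_X_pow 2).add_of_left h1, by
    rw [natDegree_add_eq_left_of_degree_lt h1, natDegree_X_pow]⟩

lemma F2_mon {m : ℕ} {v : K[X] × K[X]} (h1 : v.1 ∈ mon K m) (h2 : v.2 ∈ lt K m) :
    (F2 v).Monic ∧ (F2 v).natDegree = 4 * m := by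
  rw [mem_lt] at h2
  rw [mem_mon] at h1
  obtain ⟨hm, hd⟩ := h1
  have hXd : (v.1 ^ 4).natDegree = 4 * m := by
    rw [hm.natDegree_pow, hd]
  have hlt : ((X ^ 2 + X) * v.2 ^ 4).degree < (v.1 ^ 4).degree := by
    rw [degree_eq_natDegree (hm.pow 4).ne_zero, hXd]
    rcases eq_or_ne v.2 0 with h0 | h0
    · rw [h0, zero_pow (by norm_num), mul_zero, degree_zero]
      exact WithBot.bot_lt_coe _
    · have hq : (X ^ 2 + X : K[X]) ≠ 0 := quad_mon.1.ne_zero
      have h5 : (X ^ 2 + X) * v.2 ^ 4 ≠ 0 := mul_ne_zero hq (pow_ne_zero 4 h0)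
      rw [degree_eq_natDegree h5, natDegree_mul hq (pow_ne_zero 4 h0), natDegree_pow,
        quad_mon.2]
      rw [degree_eq_natDegree h0] at h2
      have h3 : v.2.natDegree < m := by exact_mod_cast h2
      have h4 : 2 + 4 * v.2.natDegree < 4 * m := by omega
      exact_mod_cast h4
  unfold F2
  exact ⟨(hm.pow 4).add_of_left hlt, by rw [natDegree_add_eq_left_of_degree_lt hlt, hXd]⟩

omit [Fintype K] in
lemma cop_of_irr2 {v : K[X] × K[X]} (h : Irreducible (F2 v)) : IsCoprime v.1 v.2 := by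
  rw [← EuclideanDomain.gcd_isUnit_iff]
  set g := EuclideanDomain.gcd v.1 v.2 with hg
  have h1 : g ∣ v.1 := EuclideanDomain.gcd_dvd_left _ _
  have h2 : g ∣ v.2 := EuclideanDomain.gcd_dvd_right _ _
  refine h.squarefree g ?_
  unfold F2
  have h3 : g * g ∣ v.1 ^ 4 := by
    refine (mul_dvd_mul h1 h1).trans ⟨v.1 ^ 2, by ring⟩
  have h4 : g * g ∣ (X ^ 2 + X) * v.2 ^ 4 := by
    refine (mul_dvd_mul h2 h2).trans ⟨(X ^ 2 + X) * v.2 ^ 2, by ring⟩
  exact dvd_add h3 h4

lemma pi0_eq (m : ℕ) :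
    (pi0 K m : ℝ) = ((cII K m).filter (fun v => Irreducible (F2 v))).card := by
  unfold pi0 cII
  congr 1
  congr 1
  ext v
  simp only [Finset.mem_filter]
  constructor
  · rintro ⟨h1, h2⟩
    exact ⟨⟨h1, cop_of_irr2 h2⟩, h2⟩
  · rintro ⟨⟨h1, _⟩, h2⟩
    exact ⟨h1, h2⟩

end

/-- **GD20**. -/
theorem t_gd20 : S_gd20 := by
  intro hR hE hE2 hP K _ _ _ κ hκ h ρ σ hHR hHV hρ hσ n hn
  have step1 : ∑ k ∈ Finset.range (4 * n + 3), (k : ℝ) * G0 (fun _ => 1) h n k =
      ∑ j ∈ Finset.range (n + 1), ∑ G ∈ mon K j, ∑ v ∈ cII K (n - j),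
        (derivative (W h (G ^ 2 * F2 v))).eval 1 := by
    unfold G0
    simp only [Finset.mul_sum, one_mul]
    rw [Finset.sum_comm]
    refine Finset.sum_congr rfl fun j hj => ?_
    rw [Finset.sum_comm]
    refine Finset.sum_congr rfl fun G hG => ?_
    rw [Finset.sum_comm]
    refine Finset.sum_congr rfl fun v hv => ?_
    rw [der_eval _ (4 * n + 3) ?_]
    unfold cII at hv
    rw [Finset.mem_filter, Finset.mem_product] at hv
    obtain ⟨⟨hv1, hv2⟩, hv3⟩ := hv
    have hF := F2_mon hv1 hv2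
    have hsq := ((hP K κ hκ (n - j) v hv3).2 hv1 hv2).1
    rw [mem_mon] at hG
    have h1 := (hR K _ h hHR G (F2 v) hG.1 hF.1 hsq).1
    rw [hG.2, hF.2] at h1
    rw [Finset.mem_range] at hj
    omega
  have step2 : ∀ m j : ℕ, 1 ≤ m → m + j = n → ∑ G ∈ mon K j, ∑ v ∈ cII K m,
        (derivative (W h (G ^ 2 * F2 v))).eval 1 =
      if m ∣ n then (if n / m % 4 = 1 then
        (pi0 K m : ℝ) * (4 * m) * ρ (4 * m) ((n / m - 1) / 4) else 0) else 0 := by
    intro m j hm0 hmj
    rw [Finset.sum_comm]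
    have key : ∀ v ∈ cII K m, ∑ G ∈ mon K j, (derivative (W h (G ^ 2 * F2 v))).eval 1 =
        if Irreducible (F2 v) then (if m ∣ n then (if n / m % 4 = 1 then
          ((4 * m : ℕ) : ℝ) * ρ (4 * m) ((n / m - 1) / 4) else 0) else 0) else 0 := by
      intro v hv
      unfold cII at hv
      rw [Finset.mem_filter, Finset.mem_product] at hv
      obtain ⟨⟨hv1, hv2⟩, hv3⟩ := hv
      have hF := F2_mon hv1 hv2
      have hsq := ((hP K κ hκ m v hv3).2 hv1 hv2).1
      have hF1 : F2 v ≠ 1 := by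
        intro h0
        have h1 := hF.2
        rw [h0, natDegree_one] at h1
        omega
      have hEV := fun G (hG : G.Monic) => (hE K h hHV).2 G (F2 v) hG hF.1 hsq hF1
      by_cases hirr : Irreducible (F2 v)
      · rw [if_pos hirr]
        by_cases hd : m ∣ n ∧ n / m % 4 = 1
        · rw [if_pos hd.1, if_pos hd.2]
          have hj2 := arith2 hm0 hmj hd.1 hd.2
          set a0 := (n / m - 1) / 4 with ha0
          have hmem : (F2 v) ^ a0 ∈ mon K j := by
            rw [mem_mon]
            refine ⟨hF.1.pow _, ?_⟩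
            rw [hF.1.natDegree_pow, hF.2, hj2, mul_comm]
          rw [Finset.sum_eq_single_of_mem _ hmem]
          · rw [(hEV _ (hF.1.pow _)).1 a0 hirr rfl, hρ, hF.2]
          · intro G hG hne
            rw [mem_mon] at hG
            refine (hEV G hG.1).2 (Or.inr fun a ha => hne ?_)
            have h1 : a * (4 * m) = (4 * m) * a0 := by
              rw [← hj2, ← hG.2, ha, hF.1.natDegree_pow, hF.2]
            have h2 : a = a0 := by
              have h3 : (4 * m) * a = (4 * m) * a0 := by rw [mul_comm, h1]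
              exact Nat.eq_of_mul_eq_mul_left (by omega) h3
            rw [ha, h2]
        · have h0 : (if m ∣ n then (if n / m % 4 = 1 then
              ((4 * m : ℕ) : ℝ) * ρ (4 * m) ((n / m - 1) / 4) else 0) else 0) = 0 := by
            by_cases h1 : m ∣ n
            · rw [if_pos h1, if_neg fun h2 => hd ⟨h1, h2⟩]
            · rw [if_neg h1]
          rw [h0]
          refine Finset.sum_eq_zero fun G hG => ?_
          rw [mem_mon] at hG
          refine (hEV G hG.1).2 (Or.inr fun a ha => hd ?_)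
          have h1 : j = a * (4 * m) := by
            rw [← hG.2, ha, hF.1.natDegree_pow, hF.2]
          have h2 := arith2' (m := m) (a := a) (n := n) hm0 (by
            rw [← hmj, h1]
            ring)
          exact ⟨h2.1, h2.2.1⟩
      · rw [if_neg hirr]
        refine Finset.sum_eq_zero fun G hG => ?_
        rw [mem_mon] at hG
        exact (hEV G hG.1).2 (Or.inl hirr)
    rw [Finset.sum_congr rfl key, ← Finset.sum_filter, Finset.sum_const, nsmul_eq_mul, ← pi0_eq]
    by_cases h1 : m ∣ n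
    · rw [if_pos h1, if_pos h1]
      by_cases h2 : n / m % 4 = 1
      · rw [if_pos h2, if_pos h2]
        push_cast
        ring
      · rw [if_neg h2, if_neg h2, mul_zero]
    · rw [if_neg h1, if_neg h1, mul_zero]
  have step3 : ∑ G ∈ mon K n, ∑ v ∈ cII K 0, (derivative (W h (G ^ 2 * F2 v))).eval 1 =
      ∑ r ∈ n.divisors, (irr K r : ℝ) * r * σ r (n / r) := by
    have h0 : cII K 0 = {((1 : K[X]), (0 : K[X]))} := by
      ext v
      rw [cII_zero, Finset.mem_singleton]
    have h1 : F2 ((1 : K[X]), (0 : K[X])) = 1 := by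
      unfold F2
      simp
    rw [← sum_pp (fun G => (derivative (W h (G ^ 2))).eval 1) σ n hn]
    · refine Finset.sum_congr rfl fun G _ => ?_
      rw [h0, Finset.sum_singleton, h1, mul_one]
    · intro P a hPm hPi ha
      rw [(hE2 K h hHV).1 P a hPm hPi ha, hσ]
    · exact (hE2 K h hHV).2
  have step4 : ∑ j ∈ Finset.range (n + 1), ∑ G ∈ mon K j, ∑ v ∈ cII K (n - j),
        (derivative (W h (G ^ 2 * F2 v))).eval 1 =
      ∑ m ∈ Finset.range (n + 1), ∑ G ∈ mon K (n - m), ∑ v ∈ cII K m,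
        (derivative (W h (G ^ 2 * F2 v))).eval 1 := by
    rw [← Finset.sum_flip (fun m => ∑ G ∈ mon K (n - m), ∑ v ∈ cII K m,
        (derivative (W h (G ^ 2 * F2 v))).eval 1)]
    refine Finset.sum_congr rfl fun j hj => ?_
    rw [Finset.mem_range] at hj
    have h1 : n - (n - j) = j := by omega
    rw [h1]
  have step5 : ∀ t : ℕ → ℝ, ∑ m ∈ n.divisors, t m =
      ∑ m ∈ Finset.range n, if (m + 1) ∣ n then t (m + 1) else 0 := by
    intro t
    have h1 : n.divisors = (Finset.Ico 1 (n + 1)).filter (fun d => d ∣ n) := by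
      ext d
      rw [Nat.mem_divisors, Finset.mem_filter, Finset.mem_Ico]
      constructor
      · rintro ⟨h2, _⟩
        exact ⟨⟨Nat.pos_of_dvd_of_pos h2 hn, Nat.lt_succ_of_le (Nat.le_of_dvd hn h2)⟩, h2⟩
      · rintro ⟨_, h2⟩
        exact ⟨h2, by omega⟩
    rw [h1, Finset.sum_filter, Finset.sum_Ico_eq_sum_range, Nat.add_sub_cancel]
    refine Finset.sum_congr rfl fun m _ => ?_
    rw [add_comm 1 m]
  rw [step1, step4, Finset.sum_range_succ', Nat.sub_zero, step3,
    step5 (fun m => if n / m % 4 = 1 then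
      (pi0 K m : ℝ) * (4 * m) * ρ (4 * m) ((n / m - 1) / 4) else 0)]
  refine congrArg (· + ∑ r ∈ n.divisors, (irr K r : ℝ) * r * σ r (n / r)) ?_
  refine Finset.sum_congr rfl fun m hm => ?_
  rw [Finset.mem_range] at hm
  exact step2 (m + 1) (n - (m + 1)) (by omega) (by omega)

end Pool.Agent.H231.EX
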